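import Mathlib

set_option autoImplicit false

/-!
Certificates for coprimality of finitely many polynomials.
-/

namespace Pool.Agent.W480.DD

open Polynomial nonZeroDivisors in
theorem poly_bez {B : Type*} [CommRing B] [IsDomain B] [UniqueFactorizationMonoid B] {M : ℕ}
    (g : Fin M → B[X]) (h : ∀ q, (∀ i, q ∣ g i) → IsUnit q) :
    ∃ (a : Fin M → B[X]) (b : B), b ≠ 0 ∧ ∑ i, a i * g i = Polynomial.C b := by
  classical
  let L := FractionRing B
  let _ : StrongNormalizationMonoid B := UniqueFactorizationMonoid.strongNormalizationMonoid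
  let _ : NormalizedGCDMonoid B := UniqueFactorizationMonoid.toNormalizedGCDMonoid _
  have hinj : Function.Injective (algebraMap B L) := IsFractionRing.injective B L
  let I : Ideal L[X] := Ideal.span (Set.range fun i => (g i).map (algebraMap B L))
  obtain ⟨q, hq⟩ := (IsPrincipalIdealRing.principal I).principal
  have hdvd : ∀ i, q ∣ (g i).map (algebraMap B L) := by
    intro i
    rw [← Ideal.mem_span_singleton]
    have : (g i).map (algebraMap B L) ∈ I := Ideal.subset_span ⟨i, rfl⟩
    rw [hq] at this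
    exact this
  have hq0 : q ≠ 0 := by
    rintro rfl
    have : ∀ i, g i = 0 := by
      intro i
      have h1 := zero_dvd_iff.1 (hdvd i)
      exact (Polynomial.map_eq_zero_iff hinj).1 h1
    exact not_isUnit_zero (h 0 fun i => by rw [this i])
  have hu : IsUnit q := by
    apply isUnit_or_eq_zero_of_isUnit_integerNormalization_primPart (R := B) hq0
    apply h
    intro i
    apply (Polynomial.isPrimitive_primPart _).dvd_of_fraction_map_dvd_fraction_map (K := L)
    refine dvd_trans ?_ (hdvd i)
    obtain ⟨c, c0, hc⟩ := IsLocalization.integerNormalization_spec B⁰ q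
    have h2 : (IsLocalization.integerNormalization B⁰ q).primPart.map (algebraMap B L) ∣
        (IsLocalization.integerNormalization B⁰ q).map (algebraMap B L) :=
      Polynomial.map_dvd _ (Polynomial.primPart_dvd _)
    rw [hc, Algebra.smul_def, Polynomial.algebraMap_apply] at h2
    have hcu : IsUnit (Polynomial.C (algebraMap B L c)) := by
      rw [Polynomial.isUnit_C, isUnit_iff_ne_zero]
      intro h3
      have := (injective_iff_map_eq_zero _).1 hinj c h3
      exact nonZeroDivisors.ne_zero c0 this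
    exact (hcu.dvd_mul_left).1 h2
  have h1 : (1 : L[X]) ∈ I := by
    have : I = ⊤ := by
      rw [hq]
      exact Ideal.span_singleton_eq_top.2 hu
    rw [this]
    trivial
  obtain ⟨c, hc⟩ := (Ideal.mem_span_range_iff_exists_fun).1 h1
  -- clear denominators
  have hcl : ∀ i, ∃ b : B, b ≠ 0 ∧ ∃ a : B[X], a.map (algebraMap B L) =
      Polynomial.C (algebraMap B L b) * c i := by
    intro i
    obtain ⟨b, b0, hb⟩ := IsLocalization.integerNormalization_spec B⁰ (c i)
    refine ⟨b, nonZeroDivisors.ne_zero b0, _, hb.trans ?_⟩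
    rw [Algebra.smul_def, Polynomial.algebraMap_apply]
  choose b hb0 a ha using hcl
  refine ⟨fun i => Polynomial.C (∏ j ∈ Finset.univ.erase i, b j) * a i, ∏ j, b j,
    Finset.prod_ne_zero_iff.2 fun j _ => hb0 j, ?_⟩
  apply Polynomial.map_injective _ hinj
  rw [Polynomial.map_sum, Polynomial.map_C]
  have h3 : ∀ i, ((Polynomial.C (∏ j ∈ Finset.univ.erase i, b j) * a i) * g i).map (algebraMap B L) =
      Polynomial.C (algebraMap B L (∏ j, b j)) * (c i * (g i).map (algebraMap B L)) := by
    intro i
    rw [Polynomial.map_mul, Polynomial.map_mul, Polynomial.map_C, ha i]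
    rw [← Finset.prod_erase_mul _ _ (Finset.mem_univ i), map_mul, Polynomial.C_mul]
    ring
  rw [Finset.sum_congr rfl fun i _ => h3 i, ← Finset.mul_sum, hc, mul_one]

open MvPolynomial in
/-- Certificates for coprimality in polynomial rings in several variables over a field. -/
theorem bez {K : Type*} [Field K] {σ : Type*} [Finite σ] [DecidableEq σ] {M : ℕ}
    (G : Fin M → MvPolynomial σ K) (h : ∀ q, (∀ i, q ∣ G i) → IsUnit q) (j : σ) :
    ∃ (A : Fin M → MvPolynomial σ K) (E : MvPolynomial σ K), E ≠ 0 ∧ degreeOf j E = 0 ∧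
      ∑ i, A i * G i = E := by
  let e : MvPolynomial σ K ≃ₐ[K] Polynomial (MvPolynomial {b // b ≠ j} K) :=
    (renameEquiv K (Equiv.optionSubtypeNe j).symm).trans (optionEquivLeft K {b // b ≠ j})
  have hdeg : ∀ p, degreeOf j p = (e p).natDegree := by
    intro p
    rw [degreeOf_eq_natDegree]
    rfl
  have hcop : ∀ q, (∀ i, q ∣ e (G i)) → IsUnit q := by
    intro q hq
    have h1 : IsUnit (e.symm q) := h _ fun i => by
      obtain ⟨r, hr⟩ := hq i
      exact ⟨e.symm r, by rw [← map_mul, ← hr, AlgEquiv.symm_apply_apply]⟩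
    have := h1.map e
    rwa [AlgEquiv.apply_symm_apply] at this
  obtain ⟨a, b, hb, hab⟩ := poly_bez (fun i => e (G i)) hcop
  refine ⟨fun i => e.symm (a i), e.symm (Polynomial.C b), ?_, ?_, ?_⟩
  · rw [Ne, EmbeddingLike.map_eq_zero_iff, Polynomial.C_eq_zero]
    exact hb
  · rw [hdeg, AlgEquiv.apply_symm_apply, Polynomial.natDegree_C]
  · apply e.injective
    rw [AlgEquiv.apply_symm_apply, ← hab, map_sum]
    apply Finset.sum_congr rfl
    intro i _
    rw [map_mul, AlgEquiv.apply_symm_apply]

open MvPolynomial in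
/-- Clearing denominators. -/
theorem clear {R L : Type*} [CommRing R] [IsDomain R] [Field L] [Algebra R L] [IsFractionRing R L]
    {σ : Type*} (p : MvPolynomial σ L) : ∃ b : R, b ≠ 0 ∧ ∃ p' : MvPolynomial σ R,
      map (algebraMap R L) p' = C (algebraMap R L b) * p := by
  induction p using MvPolynomial.induction_on with
  | C a =>
    obtain ⟨x, y, hy, rfl⟩ := IsFractionRing.div_surjective (A := R) a
    have hy0 := nonZeroDivisors.ne_zero hy
    refine ⟨y, hy0, C x, ?_⟩
    rw [map_C, ← C_mul, mul_div_cancel₀]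
    intro h0
    exact hy0 ((injective_iff_map_eq_zero _).1 (IsFractionRing.injective R L) y h0)
  | add p q hp hq =>
    obtain ⟨b, hb, p', hp'⟩ := hp
    obtain ⟨c, hc, q', hq'⟩ := hq
    refine ⟨b * c, mul_ne_zero hb hc, C c * p' + C b * q', ?_⟩
    simp only [map_add, map_mul, map_C, hp', hq']
    ring
  | mul_X p i hp =>
    obtain ⟨b, hb, p', hp'⟩ := hp
    refine ⟨b, hb, p' * X i, ?_⟩
    rw [map_mul, map_X, hp', mul_assoc]

open MvPolynomial in
theorem clear_fin {R L : Type*} [CommRing R] [IsDomain R] [Field L] [Algebra R L]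
    [IsFractionRing R L] {σ : Type*} {M : ℕ} (p : Fin M → MvPolynomial σ L) :
    ∃ b : R, b ≠ 0 ∧ ∃ p' : Fin M → MvPolynomial σ R,
      ∀ i, map (algebraMap R L) (p' i) = C (algebraMap R L b) * p i := by
  classical
  choose b hb p' hp' using fun i => clear (R := R) (p i)
  refine ⟨∏ j, b j, Finset.prod_ne_zero_iff.2 fun j _ => hb j,
    fun i => C (∏ j ∈ Finset.univ.erase i, b j) * p' i, fun i => ?_⟩
  rw [map_mul, map_C, hp' i, ← Finset.prod_erase_mul _ _ (Finset.mem_univ i), map_mul, C_mul]
  ring

open MvPolynomial in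
/-- Coprimality specialises. -/
theorem coprime_spec {R L : Type*} [CommRing R] [IsDomain R] [Field L] [Algebra R L]
    [IsFractionRing R L] {σ : Type*} [Finite σ] [Nonempty σ] {M : ℕ} (G : Fin M → MvPolynomial σ R)
    (h : ∀ q, (∀ i, q ∣ map (algebraMap R L) (G i)) → IsUnit q) :
    ∃ P : R, P ≠ 0 ∧ ∀ (K : Type*) [Field K] (φ : R →+* K), φ P ≠ 0 →
      ∀ q, (∀ i, q ∣ map φ (G i)) → IsUnit q := by
  classical
  cases nonempty_fintype σ
  have hinj : Function.Injective (algebraMap R L) := IsFractionRing.injective R L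
  have key : ∀ j : σ, ∃ (A : Fin M → MvPolynomial σ R) (E : MvPolynomial σ R), E ≠ 0 ∧
      degreeOf j E = 0 ∧ ∑ i, A i * G i = E := by
    intro j
    obtain ⟨A, E, hE, hdeg, hAE⟩ := bez _ h j
    obtain ⟨b, hb, A', hA'⟩ := clear_fin (R := R) A
    have hbne : algebraMap R L b ≠ 0 := fun h0 => hb ((injective_iff_map_eq_zero _).1 hinj b h0)
    have h1 : map (algebraMap R L) (∑ i, A' i * G i) = C (algebraMap R L b) * E := by
      rw [map_sum, ← hAE, Finset.mul_sum]
      apply Finset.sum_congr rfl
      intro i _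
      rw [map_mul, hA' i, mul_assoc]
    refine ⟨A', ∑ i, A' i * G i, ?_, ?_, rfl⟩
    · intro h0
      rw [h0, map_zero] at h1
      rcases mul_eq_zero.1 h1.symm with h2 | h2
      · exact hbne (C_eq_zero.1 h2)
      · exact hE h2
    · have h2 : degreeOf j (map (algebraMap R L) (∑ i, A' i * G i)) = 0 := by
        rw [h1, degreeOf_mul_eq (C_ne_zero.2 hbne) hE, hdeg, degreeOf_C]
      rw [← Nat.le_zero, degreeOf_le_iff] at h2 ⊢
      intro m hm
      apply h2 m
      rw [mem_support_iff, coeff_map]
      intro h3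
      exact (mem_support_iff.1 hm) ((injective_iff_map_eq_zero _).1 hinj _ h3)
  choose A E hE hdeg hAE using key
  have hc : ∀ j, ∃ s, coeff s (E j) ≠ 0 := fun j => by
    by_contra hcon
    push Not at hcon
    exact hE j (MvPolynomial.ext _ _ fun s => by rw [hcon s, coeff_zero])
  choose s hs using hc
  refine ⟨∏ j, coeff (s j) (E j), Finset.prod_ne_zero_iff.2 fun j _ => hs j, ?_⟩
  intro K _ φ hP q hq
  rw [map_prod, Finset.prod_ne_zero_iff] at hP
  have hqE : ∀ j, q ∣ map φ (E j) := by
    intro j
    rw [← hAE j, map_sum]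
    apply Finset.dvd_sum
    intro i _
    rw [map_mul]
    exact (hq i).mul_left _
  have hEφ : ∀ j, map φ (E j) ≠ 0 := by
    intro j h0
    apply hP j (Finset.mem_univ j)
    rw [← coeff_map, h0, coeff_zero]
  have hdegq : ∀ j, degreeOf j q = 0 := by
    intro j
    obtain ⟨r, hr⟩ := hqE j
    have hq0 : q ≠ 0 := by
      rintro rfl
      exact hEφ j (by rw [hr, zero_mul])
    have hr0 : r ≠ 0 := by
      rintro rfl
      exact hEφ j (by rw [hr, mul_zero])
    have h1 : degreeOf j (map φ (E j)) = 0 := by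
      have h2 := hdeg j
      rw [← Nat.le_zero, degreeOf_le_iff] at h2 ⊢
      intro m hm
      apply h2 m
      rw [mem_support_iff] at hm ⊢
      intro h3
      apply hm
      rw [coeff_map, h3, map_zero]
    rw [hr, degreeOf_mul_eq hq0 hr0] at h1
    omega
  have hq0 : q ≠ 0 := by
    rintro rfl
    exact hEφ (Classical.arbitrary σ) (zero_dvd_iff.1 (hqE _))
  have hqC : q = C (coeff 0 q) := by
    ext m
    rw [coeff_C]
    split_ifs with h0
    · rw [h0]
    · by_contra hne
      apply h0
      symm
      ext j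
      have h1 := hdegq j
      rw [← Nat.le_zero, degreeOf_le_iff] at h1
      have := h1 m (mem_support_iff.2 hne)
      simpa using this
  rw [hqC]
  apply IsUnit.map
  rw [isUnit_iff_ne_zero]
  intro h0
  rw [h0, C_0] at hqC
  exact hq0 hqC

end Pool.Agent.W480.DD
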