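import Mathlib

set_option autoImplicit false

/-!
Rational self-maps of projective space, their iterates, dynamical degrees, and specialisation of
families depending rationally on parameters.
-/

namespace Pool.Agent.W480.DD

open MvPolynomial Filter Topology

/-- A rational self-map of `ℙ^N` over `K`: homogeneous polynomials `f_0, …, f_N` of one common
degree without a nonconstant common factor. -/
structure RatMap (K : Type*) [Field K] (N : ℕ) where
  /-- the coordinates `f_0, …, f_N` -/
  poly : Fin (N + 1) → MvPolynomial (Fin (N + 1)) K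
  /-- the common degree -/
  degree : ℕ
  homogeneous : ∀ i, (poly i).IsHomogeneous degree
  coprime : ∀ q : MvPolynomial (Fin (N + 1)) K, (∀ i, q ∣ poly i) → IsUnit q

variable {K : Type*} [Field K] {N : ℕ}

/-- `f` is dominant: `f_0, …, f_N` satisfy no nontrivial polynomial relation. -/
def RatMap.Dominant (f : RatMap K N) : Prop := AlgebraicIndependent K f.poly

/-- The `n`-fold composition computed by substitution, common factors being kept:
`f^0 = (X_0, …, X_N)` and `f^(n+1) = f (f^n)`. -/
noncomputable def RatMap.subst (f : RatMap K N) : ℕ → Fin (N + 1) → MvPolynomial (Fin (N + 1)) K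
  | 0 => X
  | n + 1 => fun i => bind₁ (f.subst n) (f.poly i)

/-- `g` is the `n`-th iterate of `f`: the `n`-fold substitution with a common factor removed. -/
def RatMap.IsIterate (f : RatMap K N) (n : ℕ) (g : RatMap K N) : Prop :=
  ∃ c : MvPolynomial (Fin (N + 1)) K, c ≠ 0 ∧ ∀ i, f.subst n i = c * g.poly i

/-- `δ` is the dynamical degree `lim deg (f^n) ^ (1/n)` of `f`. -/
def RatMap.IsDynamicalDegree (f : RatMap K N) (δ : ℝ) : Prop :=
  ∃ e : ℕ → ℕ, (∀ n, ∃ g : RatMap K N, f.IsIterate n g ∧ g.degree = e n) ∧
    Tendsto (fun n : ℕ => (e n : ℝ) ^ ((1 : ℝ) / n)) atTop (𝓝 δ)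

/-- The field `ℂ(T_1, …, T_k)` of rational functions in the parameters. -/
abbrev RatFun (k : ℕ) : Type := FractionRing (MvPolynomial (Fin k) ℂ)

/-- The rational function `c` is defined at `t ∈ ℂ^k` and has the value `v` there. -/
def HasValueAt {k : ℕ} (c : RatFun k) (t : Fin k → ℂ) (v : ℂ) : Prop :=
  ∃ a b : MvPolynomial (Fin k) ℂ, eval t b ≠ 0 ∧
    c * algebraMap (MvPolynomial (Fin k) ℂ) (RatFun k) b =
      algebraMap (MvPolynomial (Fin k) ℂ) (RatFun k) a ∧ v = eval t a / eval t b

/-- `g` is the specialised map `f_t`: all coefficients of the coordinates of `f` are defined at `t`,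
and `g` is obtained from the tuple of specialised coordinates by removing a common factor `h`. -/
def IsSpecialisation {k : ℕ} (f : RatMap (RatFun k) N) (t : Fin k → ℂ) (g : RatMap ℂ N) : Prop :=
  ∃ h : MvPolynomial (Fin (N + 1)) ℂ, h ≠ 0 ∧
    ∀ i s, HasValueAt (coeff s (f.poly i)) t (coeff s (h * g.poly i))

/-- A subset of `ℂ^k` is Zariski dense if only the zero polynomial vanishes on it. -/
def ZariskiDense {k : ℕ} (S : Set (Fin k → ℂ)) : Prop :=
  ∀ P : MvPolynomial (Fin k) ℂ, (∀ t ∈ S, eval t P = 0) → P = 0

end Pool.Agent.W480.DD
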