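import Pool.Agent.W480.DD.Spec

set_option autoImplicit false

namespace Pool.Agent.W480.DD

open MvPolynomial Filter Topology Pool.Agent.Helper993.CS

universe u

/-- the analytic lemma -/
theorem exists_step (e : ℕ → ℕ) (hpos : ∀ n, 0 < e n) (δ : ℝ) (hδ0 : 0 < δ)
    (hδ : Tendsto (fun n : ℕ => (e n : ℝ) ^ ((1 : ℝ) / n)) atTop (𝓝 δ)) (N : ℕ) (γ ρ : ℝ)
    (hγ : 0 < γ) (hρ : 0 < ρ) (hρδ : ρ < δ) :
    ∃ m : ℕ, 1 ≤ m ∧ ∀ j < N, ρ ^ m / γ * e (m * j) ≤ e (m * (j + 1)) := by
  have hL : Tendsto (fun n : ℕ => Real.log (e n) / n) atTop (𝓝 (Real.log δ)) := by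
    have h1 := (Real.continuousAt_log hδ0.ne').tendsto.comp hδ
    refine h1.congr fun n => ?_
    have : (0 : ℝ) < e n := by exact_mod_cast hpos n
    rw [Function.comp_apply, Real.log_rpow this]
    ring
  have hj : ∀ j : ℕ, Tendsto (fun m : ℕ => Real.log (e (m * j)) / m) atTop
      (𝓝 (j * Real.log δ)) := by
    intro j
    rcases Nat.eq_zero_or_pos j with rfl | hj
    · simp only [mul_zero, Nat.cast_zero, zero_mul]
      exact tendsto_const_nhds.div_atTop tendsto_natCast_atTop_atTop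
    · have h1 : Tendsto (fun m : ℕ => m * j) atTop atTop :=
        tendsto_id.atTop_mul_const' hj
      have h2 := (hL.comp h1).const_mul (j : ℝ)
      refine h2.congr' ?_
      filter_upwards [eventually_gt_atTop 0] with m hm
      have hj' : (j : ℝ) ≠ 0 := by exact_mod_cast hj.ne'
      have hm' : (m : ℝ) ≠ 0 := by exact_mod_cast hm.ne'
      simp only [Function.comp_apply, Nat.cast_mul]
      field_simp
  have hev : ∀ j < N, ∀ᶠ m : ℕ in atTop, ρ ^ m / γ * e (m * j) ≤ e (m * (j + 1)) := by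
    intro j _
    have h1 : Tendsto (fun m : ℕ => Real.log (e (m * (j + 1))) / m - Real.log (e (m * j)) / m +
        Real.log γ / m) atTop (𝓝 (((j + 1 : ℕ) : ℝ) * Real.log δ - j * Real.log δ + 0)) :=
      ((hj (j + 1)).sub (hj j)).add (tendsto_const_nhds.div_atTop tendsto_natCast_atTop_atTop)
    have h2 : ((j + 1 : ℕ) : ℝ) * Real.log δ - j * Real.log δ + 0 = Real.log δ := by
      push_cast
      ring
    rw [h2] at h1
    have h3 : Real.log ρ < Real.log δ := Real.log_lt_log hρ hρδ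
    filter_upwards [h1.eventually (lt_mem_nhds h3), eventually_gt_atTop 0] with m hm hm0
    have hm' : (0 : ℝ) < m := by exact_mod_cast hm0
    have e1 : (0 : ℝ) < e (m * j) := by exact_mod_cast hpos _
    have e2 : (0 : ℝ) < e (m * (j + 1)) := by exact_mod_cast hpos _
    rw [← sub_div, ← add_div, lt_div_iff₀ hm'] at hm
    rw [← Real.log_le_log_iff (by positivity) e2, Real.log_mul (by positivity) e1.ne',
      Real.log_div (by positivity) hγ.ne', Real.log_pow]
    linarith
  have hall : ∀ᶠ m : ℕ in atTop, ∀ j ∈ Finset.range N,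
      ρ ^ m / γ * e (m * j) ≤ e (m * (j + 1)) := by
    rw [Filter.eventually_all_finset]
    intro j hj
    exact hev j (Finset.mem_range.1 hj)
  obtain ⟨m, hm, hm1⟩ := (hall.and (eventually_ge_atTop 1)).exists
  exact ⟨m, hm1, fun j hj => hm j (Finset.mem_range.2 hj)⟩

theorem spec_hom {k N d : ℕ} (F : Fin (N + 1) → MvPolynomial (Fin (N + 1)) (RatFun k))
    (hF : ∀ i, (F i).IsHomogeneous d) (t : Fin k → ℂ)
    (g : Fin (N + 1) → MvPolynomial (Fin (N + 1)) ℂ)
    (hg : ∀ i s, HasValueAt (coeff s (F i)) t (coeff s (g i))) : ∀ i, (g i).IsHomogeneous d := by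
  have hinj : Function.Injective (algebraMap (MvPolynomial (Fin k) ℂ) (RatFun k)) :=
    IsFractionRing.injective _ _
  intro i s hs
  obtain ⟨x, y, hy, hxy, hv⟩ := hg i s
  apply hF i
  intro h0
  apply hs
  rw [h0, zero_mul] at hxy
  have : x = 0 := (injective_iff_map_eq_zero _).1 hinj x hxy.symm
  rw [hv, this, map_zero, zero_div]

/-- The dynamical degree of a dominant map exists and is unique. -/
theorem exists_unique_dynamicalDegree {K : Type u} [Field K] [Infinite K] {N : ℕ} (hN : 1 ≤ N)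
    (f : RatMap K N) (hf : f.Dominant) : ∃! δ : ℝ, f.IsDynamicalDegree δ := by
  obtain ⟨γ, hγ, hmain⟩ := main_inf.{u} N hN
  obtain ⟨D, hpos, hD, δ, hδ, -⟩ := hmain K f.degree f.poly f.homogeneous hf
  refine ⟨δ, ⟨D, fun n => ?_, hδ⟩, ?_⟩
  · obtain ⟨⟨H, G, hH, hHG, hG, hcop⟩, -⟩ := hD n
    exact ⟨⟨G, D n, hG, hcop⟩, ⟨H, hH, fun i => by rw [subst_eq_iter]; exact hHG i⟩, rfl⟩
  · rintro δ' ⟨e, he, hδ'⟩
    have : e = D := by
      funext n
      obtain ⟨g, hg, hge⟩ := he n
      rw [← hge]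
      exact (hD n).2 _ (redDeg_of_isIterate hg)
    rw [this] at hδ'
    exact tendsto_nhds_unique hδ' hδ

theorem main (N k : ℕ) (hN : 1 ≤ N) (f : RatMap (RatFun k) N) (hf : f.Dominant) (δ : ℝ)
    (hδ : f.IsDynamicalDegree δ) (ε : ℝ) (hε : 0 < ε) :
    ¬ ZariskiDense {t : Fin k → ℂ | ∃ g : RatMap ℂ N, IsSpecialisation f t g ∧ g.Dominant ∧
      ∃ δ', g.IsDynamicalDegree δ' ∧ δ' ≤ δ - ε} := by
  obtain ⟨γ, hγ, hmain⟩ := main_inf.{0} N hN
  obtain ⟨e, he, hlim⟩ := hδ
  have heR : ∀ n, RedDeg (iter f.poly n) (e n) := by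
    intro n
    obtain ⟨g, hg, hge⟩ := he n
    rw [← hge]
    exact redDeg_of_isIterate hg
  have hinf : Infinite (RatFun k) := by
    have hinj : Function.Injective (fun n : ℕ => (n : RatFun k)) := Nat.cast_injective
    exact Infinite.of_injective _ hinj
  obtain ⟨D, hposD, hD, -⟩ := hmain (RatFun k) f.degree f.poly f.homogeneous hf
  have heD : e = D := funext fun n => (hD n).2 _ (heR n)
  have hpos : ∀ n, 0 < e n := fun n => by rw [heD]; exact hposD n
  have hδ1 : 1 ≤ δ := by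
    apply ge_of_tendsto hlim
    filter_upwards with n
    exact Real.one_le_rpow (by exact_mod_cast hpos n) (by positivity)
  set ρ := max (δ - ε / 2) (δ / 2) with hρ
  have hρ0 : 0 < ρ := lt_of_lt_of_le (by linarith) (le_max_right _ _)
  have hρδ : ρ < δ := max_lt (by linarith) (by linarith)
  have hρε : δ - ε < ρ := lt_of_lt_of_le (by linarith) (le_max_left _ _)
  obtain ⟨m, hm1, hm⟩ := exists_step e hpos δ (by linarith) hlim N γ ρ hγ hρ0 hρδ
  choose P hP0 hP using fun j : ℕ => redDeg_spec f.poly f.homogeneous (m * j) _ (heR (m * j))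
  intro hdense
  have hprod := hdense (∏ j ∈ Finset.range (N + 1), P j) ?_
  · exact (Finset.prod_ne_zero_iff.2 fun j _ => hP0 j) hprod
  rintro t ⟨g, ⟨h, hh0, hspec⟩, hgdom, δ', ⟨e', he', hlim'⟩, hδ'⟩
  by_contra hne
  rw [map_prod, ← Ne, Finset.prod_ne_zero_iff] at hne
  -- the specialised tuple and its iterates
  have hhom := spec_hom f.poly f.homogeneous t (fun i => h * g.poly i) hspec
  obtain ⟨a, b, -, ha, -⟩ := factor_hom (hhom 0) (mul_ne_zero hh0 (hgdom.ne_zero 0))
  have he'R : ∀ n, RedDeg (iter g.poly n) (e' n) := by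
    intro n
    obtain ⟨g', hg', hge⟩ := he' n
    rw [← hge]
    exact redDeg_of_isIterate hg'
  have hee : ∀ j ≤ N, e' (m * j) = e (m * j) := by
    intro j hj
    obtain ⟨c, hc, hcj⟩ := iter_scale_poly g.poly g.homogeneous hgdom h ha hh0 (m * j)
    have h1 : RedDeg (iter (fun i => h * g.poly i) (m * j)) (e (m * j)) :=
      hP j t _ hspec (hne j (Finset.mem_range.2 (by omega)))
    have h2 : RedDeg (iter (fun i => h * g.poly i) (m * j)) (e' (m * j)) :=
      redDeg_mul hc hcj (he'R (m * j))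
    have h3 : iter (fun i => h * g.poly i) (m * j) 0 ≠ 0 := by
      rw [hcj]
      exact mul_ne_zero hc (iter_ne_zero _ hgdom _ _)
    exact redDeg_unique _ h3 _ _ h2 h1
  obtain ⟨D', hposD', hD', δ'', hδ'', hbound⟩ := hmain ℂ (g.degree ^ m) (iter g.poly m)
    (iter_hom g.degree g.poly g.homogeneous m) (iter_indep g.poly hgdom m)
  have hD'e : ∀ j, D' j = e' (m * j) := by
    intro j
    symm
    apply (hD' j).2
    rw [iter_mul]
    exact he'R (m * j)
  have hlim'' : Tendsto (fun n : ℕ => (D' n : ℝ) ^ ((1 : ℝ) / n)) atTop (𝓝 (δ' ^ m)) := by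
    have h1 : Tendsto (fun n : ℕ => m * n) atTop atTop := by
      have := tendsto_id (α := ℕ) (x := atTop)
      exact this.const_mul_atTop' hm1
    have h2 := (hlim'.comp h1).pow m
    refine h2.congr' ?_
    filter_upwards [eventually_gt_atTop 0] with n hn
    have hm' : (m : ℝ) ≠ 0 := by exact_mod_cast (by omega : m ≠ 0)
    have hn' : (n : ℝ) ≠ 0 := by exact_mod_cast hn.ne'
    rw [Function.comp_apply, hD'e n, ← Real.rpow_natCast, ← Real.rpow_mul (by positivity)]
    congr 1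
    push_cast
    field_simp
  have hδδ : δ'' = δ' ^ m := tendsto_nhds_unique hδ'' hlim''
  have h1 : γ * (ρ ^ m / γ) ≤ δ'' := by
    apply hbound
    intro j hj
    rw [hD'e, hD'e, hee j hj.le, hee (j + 1) hj]
    exact hm j hj
  rw [mul_div_cancel₀ _ hγ.ne', hδδ] at h1
  have hδ'0 : 0 ≤ δ' := by
    apply ge_of_tendsto hlim'
    filter_upwards with n
    positivity
  have h2 : ρ ≤ δ' := by
    by_contra hcon
    push Not at hcon
    have := pow_lt_pow_left₀ hcon hδ'0 (by omega : m ≠ 0)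
    linarith
  linarith

end Pool.Agent.W480.DD
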