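import Pool.Agent.W480.DD.Bez
import Pool.Agent.W480.DD.Defs
import Pool.Agent.Helper993.CS.Z5

set_option autoImplicit false

namespace Pool.Agent.W480.DD

open MvPolynomial Filter Topology Pool.Agent.Helper993.CS

universe u

/-- iterates over a commutative ring -/
noncomputable def itR {R : Type*} [CommRing R] {N : ℕ}
    (f : Fin (N + 1) → MvPolynomial (Fin (N + 1)) R) : ℕ → Fin (N + 1) → MvPolynomial (Fin (N + 1)) R
  | 0 => X
  | n + 1 => fun i => bind₁ (itR f n) (f i)

theorem itR_eq_iter {K : Type u} [Field K] {N : ℕ} (f : Fin (N + 1) → MvPolynomial (Fin (N + 1)) K)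
    (n : ℕ) : itR f n = iter f n := by
  induction n with
  | zero => rfl
  | succ n ih =>
    funext i
    simp only [itR, iter, ih]

theorem itR_map {R S : Type*} [CommRing R] [CommRing S] (φ : R →+* S) {N : ℕ}
    (f : Fin (N + 1) → MvPolynomial (Fin (N + 1)) R) (n : ℕ) (i : Fin (N + 1)) :
    map φ (itR f n i) = itR (fun i => map φ (f i)) n i := by
  induction n generalizing i with
  | zero => simp [itR]
  | succ n ih =>
    simp only [itR]
    rw [map_bind₁]
    congr 2
    funext j
    exact ih j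

theorem subst_eq_iter {K : Type u} [Field K] {N : ℕ} (f : RatMap K N) (n : ℕ) :
    f.subst n = iter f.poly n := by
  induction n with
  | zero => rfl
  | succ n ih =>
    funext i
    simp only [RatMap.subst, iter, ih]

theorem redDeg_of_isIterate {K : Type u} [Field K] {N : ℕ} {f g : RatMap K N} {n : ℕ}
    (h : f.IsIterate n g) : RedDeg (iter f.poly n) g.degree := by
  obtain ⟨c, hc, h⟩ := h
  rw [subst_eq_iter] at h
  exact ⟨c, g.poly, hc, h, g.homogeneous, g.coprime⟩

theorem scale_bind {K : Type*} [Field K] {N : ℕ} {P : MvPolynomial (Fin (N + 1)) K} {e : ℕ}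
    (hP : P.IsHomogeneous e) (c : MvPolynomial (Fin (N + 1)) K)
    (g : Fin (N + 1) → MvPolynomial (Fin (N + 1)) K) :
    bind₁ (fun i => c * g i) P = c ^ e * bind₁ g P := ff_scale hP c g

theorem iter_scale_const {K : Type u} [Field K] {N : ℕ} {d : ℕ}
    (f : Fin (N + 1) → MvPolynomial (Fin (N + 1)) K) (hf : ∀ i, (f i).IsHomogeneous d) (c : K)
    (hc : c ≠ 0) (n : ℕ) : ∃ c' : K, c' ≠ 0 ∧ ∀ i, iter (fun i => C c * f i) n i =
      C c' * iter f n i := by
  induction n with
  | zero => exact ⟨1, one_ne_zero, fun i => by simp [iter]⟩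
  | succ n ih =>
    obtain ⟨c', hc', h⟩ := ih
    refine ⟨c * c' ^ d, mul_ne_zero hc (pow_ne_zero _ hc'), fun i => ?_⟩
    simp only [iter]
    rw [map_mul, show iter (fun i => C c * f i) n = fun i => C c' * iter f n i from funext h,
      scale_bind (hf i), bind₁_C_right, C_mul, C_pow, mul_assoc]

theorem iter_indep {K : Type u} [Field K] {N : ℕ} (f : Fin (N + 1) → MvPolynomial (Fin (N + 1)) K)
    (hf : AlgebraicIndependent K f) (n : ℕ) : AlgebraicIndependent K (iter f n) := by
  induction n with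
  | zero => exact MvPolynomial.algebraicIndependent_X (Fin (N + 1)) K
  | succ n ih =>
    have : iter f (n + 1) = (aeval (iter f n) : _ →ₐ[K] MvPolynomial (Fin (N + 1)) K) ∘ f := by
      funext i
      rfl
    rw [this]
    exact hf.map' ih

theorem iter_scale_poly {K : Type u} [Field K] {N : ℕ} {d a : ℕ}
    (f : Fin (N + 1) → MvPolynomial (Fin (N + 1)) K) (hf : ∀ i, (f i).IsHomogeneous d)
    (hind : AlgebraicIndependent K f) (c : MvPolynomial (Fin (N + 1)) K)
    (hca : c.IsHomogeneous a) (hc : c ≠ 0) (n : ℕ) :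
    ∃ c' : MvPolynomial (Fin (N + 1)) K, c' ≠ 0 ∧ ∀ i, iter (fun i => c * f i) n i =
      c' * iter f n i := by
  induction n with
  | zero => exact ⟨1, one_ne_zero, fun i => by simp [iter]⟩
  | succ n ih =>
    obtain ⟨c', hc', h⟩ := ih
    have h0 : bind₁ (iter f n) c ≠ 0 := by
      have h1 := iter_indep f hind n
      rw [algebraicIndependent_iff] at h1
      exact fun h2 => hc (h1 c h2)
    refine ⟨c' ^ a * bind₁ (iter f n) c * c' ^ d,
      mul_ne_zero (mul_ne_zero (pow_ne_zero _ hc') h0) (pow_ne_zero _ hc'), fun i => ?_⟩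
    simp only [iter]
    rw [map_mul, show iter (fun i => c * f i) n = fun i => c' * iter f n i from funext h,
      scale_bind (hf i), scale_bind hca]
    ring

theorem iter_add {K : Type u} [Field K] {N : ℕ} (f : Fin (N + 1) → MvPolynomial (Fin (N + 1)) K)
    (a b : ℕ) (i : Fin (N + 1)) : bind₁ (iter f a) (iter f b i) = iter f (a + b) i := by
  induction b generalizing i with
  | zero => simp [iter]
  | succ b ih =>
    simp only [iter]
    rw [bind₁_bind₁]
    congr 2
    funext j
    exact ih j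

theorem iter_mul {K : Type u} [Field K] {N : ℕ} (f : Fin (N + 1) → MvPolynomial (Fin (N + 1)) K)
    (m j : ℕ) : iter (iter f m) j = iter f (m * j) := by
  induction j with
  | zero => rfl
  | succ j ih =>
    funext i
    simp only [iter]
    rw [ih, iter_add, mul_add, mul_one]

theorem iter_ne_zero {K : Type u} [Field K] {N : ℕ} (f : Fin (N + 1) → MvPolynomial (Fin (N + 1)) K)
    (hf : AlgebraicIndependent K f) (n : ℕ) (i : Fin (N + 1)) : iter f n i ≠ 0 :=
  (iter_indep f hf n).ne_zero i

theorem redDeg_mul {K : Type u} [Field K] {N : ℕ} {P Q : Fin (N + 1) → MvPolynomial (Fin (N + 1)) K}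
    {d : ℕ} {c : MvPolynomial (Fin (N + 1)) K} (hc : c ≠ 0) (h : ∀ i, P i = c * Q i)
    (hQ : RedDeg Q d) : RedDeg P d := by
  obtain ⟨H, G, hH, hG, h1, h2⟩ := hQ
  exact ⟨c * H, G, mul_ne_zero hc hH, fun i => by rw [h i, hG i, mul_assoc], h1, h2⟩

/-- The reduced degree of the `n`-th iterate is constant outside a hypersurface. -/
theorem redDeg_spec {k N : ℕ} {d : ℕ} (F : Fin (N + 1) → MvPolynomial (Fin (N + 1)) (RatFun k))
    (hF : ∀ i, (F i).IsHomogeneous d) (n D : ℕ) (hD : RedDeg (iter F n) D) :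
    ∃ P : MvPolynomial (Fin k) ℂ, P ≠ 0 ∧ ∀ (t : Fin k → ℂ)
      (g : Fin (N + 1) → MvPolynomial (Fin (N + 1)) ℂ),
      (∀ i s, HasValueAt (coeff s (F i)) t (coeff s (g i))) → eval t P ≠ 0 →
      RedDeg (iter g n) D := by
  have hinj : Function.Injective (algebraMap (MvPolynomial (Fin k) ℂ) (RatFun k)) :=
    IsFractionRing.injective _ _
  have hne : ∀ b : MvPolynomial (Fin k) ℂ, b ≠ 0 →
      algebraMap (MvPolynomial (Fin k) ℂ) (RatFun k) b ≠ 0 := fun b hb h0 =>
    hb ((injective_iff_map_eq_zero _).1 hinj b h0)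
  obtain ⟨b, hb, F', hF'⟩ := clear_fin (R := MvPolynomial (Fin k) ℂ) F
  obtain ⟨β, hβ, hit⟩ := iter_scale_const F hF _ (hne b hb) n
  obtain ⟨H, G, hH, hHG, hG, hcop⟩ := hD
  obtain ⟨b1, hb1, H', hH'⟩ := clear (R := MvPolynomial (Fin k) ℂ) (C β * H)
  obtain ⟨b2, hb2, G', hG'⟩ := clear_fin (R := MvPolynomial (Fin k) ℂ) G
  have hmapinj := MvPolynomial.map_injective (σ := Fin (N + 1)) _ hinj
  -- the identity over the polynomial ring
  have hid : ∀ i, C b1 * C b2 * itR F' n i = H' * G' i := by
    intro i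
    apply hmapinj
    have e1 : MvPolynomial.map (algebraMap (MvPolynomial (Fin k) ℂ) (RatFun k)) (itR F' n i) =
        C β * iter F n i := by
      rw [itR_map, show (fun i => MvPolynomial.map
          (algebraMap (MvPolynomial (Fin k) ℂ) (RatFun k)) (F' i)) =
        fun i => C (algebraMap (MvPolynomial (Fin k) ℂ) (RatFun k) b) * F i from funext hF',
        itR_eq_iter, hit i]
    simp only [map_mul, map_C]
    rw [e1, hH', hG', hHG i]
    ring
  have hG'hom : ∀ i, (G' i).IsHomogeneous D := by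
    intro i s hs
    apply hG i
    intro h0
    apply hs
    apply hinj
    rw [map_zero, ← coeff_map, hG', coeff_C_mul, h0, mul_zero]
  have hH'0 : H' ≠ 0 := by
    rintro rfl
    rw [map_zero] at hH'
    rcases mul_eq_zero.1 hH'.symm with h | h
    · exact hne b1 hb1 (C_eq_zero.1 h)
    · rcases mul_eq_zero.1 h with h | h
      · exact hβ (C_eq_zero.1 h)
      · exact hH h
  obtain ⟨s0, hs0⟩ : ∃ s, coeff s H' ≠ 0 := by
    by_contra hcon
    push Not at hcon
    exact hH'0 (MvPolynomial.ext _ _ fun s => by rw [hcon s, coeff_zero])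
  obtain ⟨PG, hPG, hspec⟩ := coprime_spec (L := RatFun k) G' (by
    intro q hq
    apply hcop
    intro i
    have h1 := hq i
    rw [hG' i] at h1
    have hu : IsUnit (C (algebraMap (MvPolynomial (Fin k) ℂ) (RatFun k) b2) :
        MvPolynomial (Fin (N + 1)) (RatFun k)) :=
      (isUnit_iff_ne_zero.2 (hne b2 hb2)).map _
    exact (hu.dvd_mul_left).1 h1)
  refine ⟨b * b1 * b2 * coeff s0 H' * PG, ?_, ?_⟩
  · exact mul_ne_zero (mul_ne_zero (mul_ne_zero (mul_ne_zero hb hb1) hb2) hs0) hPG
  · intro t g hg hP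
    simp only [map_mul, mul_ne_zero_iff] at hP
    obtain ⟨⟨⟨⟨ht, ht1⟩, ht2⟩, hts⟩, htG⟩ := hP
    -- the specialised tuple
    have hgF : ∀ i, MvPolynomial.map (eval t) (F' i) = C (eval t b) * g i := by
      intro i
      ext s
      rw [coeff_map, coeff_C_mul]
      obtain ⟨x, y, hy, hxy, hv⟩ := hg i s
      have h1 : algebraMap (MvPolynomial (Fin k) ℂ) (RatFun k) (coeff s (F' i) * y) =
          algebraMap (MvPolynomial (Fin k) ℂ) (RatFun k) (b * x) := by
        rw [map_mul, map_mul, ← hxy, ← coeff_map, hF' i, coeff_C_mul]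
        ring
      have h2 := congrArg (eval t) (hinj h1)
      rw [map_mul, map_mul] at h2
      rw [hv]
      field_simp
      exact h2
    have hghom : ∀ i, (g i).IsHomogeneous d := by
      intro i s hs
      obtain ⟨x, y, hy, hxy, hv⟩ := hg i s
      apply hF i
      intro h0
      apply hs
      rw [h0, zero_mul] at hxy
      have : x = 0 := (injective_iff_map_eq_zero _).1 hinj x hxy.symm
      rw [hv, this, map_zero, zero_div]
    obtain ⟨β', hβ', hit'⟩ := iter_scale_const g hghom _ ht n
    have hid' : ∀ i, C (eval t b1 * eval t b2 * β') * iter g n i =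
        MvPolynomial.map (eval t) H' * MvPolynomial.map (eval t) (G' i) := by
      intro i
      have h1 := congrArg (MvPolynomial.map (eval t)) (hid i)
      simp only [map_mul, map_C] at h1
      rw [itR_map,
        show (fun i => MvPolynomial.map (eval t) (F' i)) = fun i => C (eval t b) * g i from
          funext hgF, itR_eq_iter, hit' i] at h1
      rw [← h1]
      simp only [C_mul]
      ring
    have hc0 : eval t b1 * eval t b2 * β' ≠ 0 := mul_ne_zero (mul_ne_zero ht1 ht2) hβ'
    refine ⟨C (eval t b1 * eval t b2 * β')⁻¹ * MvPolynomial.map (eval t) H', fun i => MvPolynomial.map (eval t) (G' i),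
      ?_, ?_, ?_, ?_⟩
    · apply mul_ne_zero (C_ne_zero.2 (inv_ne_zero hc0))
      intro h0
      apply hts
      rw [← coeff_map, h0, coeff_zero]
    · intro i
      rw [mul_assoc, ← hid' i, ← mul_assoc, ← C_mul, inv_mul_cancel₀ hc0, C_1, one_mul]
    · intro i
      exact (hG'hom i).map _
    · exact hspec ℂ (eval t) htG

end Pool.Agent.W480.DD
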